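import Pool.Agent.L7h31.CR.Stm

/-! [EX] of project CR (helper31). -/

set_option autoImplicit false

namespace Pool.Agent.L7h6.CR

open Pool.Agent.L7h31.CR

theorem ex_bd {k : ℕ} (i : ZMod (k + 1)) (l : ℤ) : l ≤ ex i l ∧ ex i l ≤ l + k := by
  unfold ex
  have h := ZMod.val_lt (i - (l : ZMod (k + 1)))
  constructor <;> omega

theorem ex_cast {k : ℕ} (i : ZMod (k + 1)) (l : ℤ) : ((ex i l : ℤ) : ZMod (k + 1)) = i := by
  unfold ex
  rw [Int.cast_add, Int.cast_natCast, ZMod.natCast_zmod_val]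
  ring

theorem ex_uni {k : ℕ} {i : ZMod (k + 1)} {l e : ℤ} (h1 : l ≤ e) (h2 : e ≤ l + k)
    (h3 : (e : ZMod (k + 1)) = i) : ex i l = e := by
  have h4 := ex_bd i l
  have h5 : ((ex i l : ℤ) : ZMod (k + 1)) = ((e : ℤ) : ZMod (k + 1)) := by rw [ex_cast, h3]
  rw [ZMod.intCast_eq_intCast_iff_dvd_sub] at h5
  obtain ⟨q, hq⟩ := h5
  push_cast at hq
  have h6 : q = 0 := by
    have h7 : ((k : ℤ) + 1) * q < ((k : ℤ) + 1) * 1 := by omega
    have h8 : ((k : ℤ) + 1) * (-1) < ((k : ℤ) + 1) * q := by omega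
    have h9 : (0 : ℤ) < (k : ℤ) + 1 := by omega
    have h10 := lt_of_mul_lt_mul_left h7 h9.le
    have h11 := lt_of_mul_lt_mul_left h8 h9.le
    omega
  rw [h6] at hq
  omega

theorem s_EX : S_EX := by
  intro k i l
  have h1 := ex_bd i l
  have h2 := ex_cast i l
  have h3 : (((k : ℤ) + 1 : ℤ) : ZMod (k + 1)) = 0 := by
    have := ZMod.natCast_self (k + 1)
    push_cast at this ⊢
    exact this
  refine ⟨h1, ?_, ?_, ?_, ?_⟩
  · intro hi
    refine ⟨ex_uni le_rfl (by omega) hi.symm, ?_⟩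
    refine ex_uni (by omega) (by omega) ?_
    have : l + (k : ℤ) + 1 = l + ((k : ℤ) + 1) := by ring
    rw [this, Int.cast_add, h3, add_zero, hi]
  · intro hi
    have h4 : ex i l ≠ l := by
      intro h
      rw [h] at h2
      exact hi h2.symm
    exact ex_uni (by omega) (by omega) h2
  · intro d
    refine ex_uni (by omega) (by omega) ?_
    rw [Int.cast_add, h2]
  · refine ex_uni (by omega) (by omega) ?_
    rw [Int.cast_add, h2, h3, add_zero]

end Pool.Agent.L7h6.CR
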