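import Pool.Agent.L7h31.CR.Stm

/-! [GAP] and [GCONT] of project CR (helper31). -/

set_option autoImplicit false

namespace Pool.Agent.L7h6.CR

open Pool.Agent.L7h31.CR

theorem s_GAP (hSD : S_SD) (hGF : S_GF) : S_GAP := by
  intro k A l
  have h0 : 0 < A.lam := lt_trans one_pos A.one_lt
  have h1 : 0 < A.lam ^ 2 - 1 := by nlinarith [A.one_lt]
  have hk : (0 : ℝ) ≤ k := Nat.cast_nonneg k
  have hc : 0 < A.c := by
    by_contra h
    push Not at h
    have := A.big
    nlinarith [mul_nonneg (neg_nonneg.2 h) h1.le]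
  refine ⟨hc, ?_, ?_, ?_⟩
  · intro x
    unfold GG
    have : 0 ≤ ∑ i, sd A i l ^ 2 * gf (x i / sd A i l) :=
      Finset.sum_nonneg fun i _ => mul_nonneg (sq_nonneg _) (hGF.1 _).1
    linarith
  · intro x
    unfold GG
    have h2 : ∀ i : ZMod (k + 1), sd A i (l - 1) ^ 2 * gf (x i / sd A i (l - 1)) ≤
        A.lam ^ (2 * (l - 1)) := by
      intro i
      obtain ⟨h3, ⟨-, h4⟩, -⟩ := hSD k A i (l - 1)
      have h5 : sd A i (l - 1) ^ 2 ≤ (2 * A.lam ^ (l - 1)) ^ 2 := pow_le_pow_left₀ h3.le h4 2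
      have h6 : (2 * A.lam ^ (l - 1)) ^ 2 = 4 * A.lam ^ (2 * (l - 1)) := by
        rw [mul_pow, two_mul (l - 1), zpow_add₀ h0.ne']
        ring
      obtain ⟨h7, h8⟩ := hGF.1 (x i / sd A i (l - 1))
      calc sd A i (l - 1) ^ 2 * gf (x i / sd A i (l - 1)) ≤
          sd A i (l - 1) ^ 2 * (1 / 4) := mul_le_mul_of_nonneg_left h8 (sq_nonneg _)
        _ ≤ A.lam ^ (2 * (l - 1)) := by linarith
    have h3 := Finset.sum_le_sum fun (i : ZMod (k + 1)) (_ : i ∈ Finset.univ) => h2 i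
    rw [Finset.sum_const, Finset.card_univ, ZMod.card, nsmul_eq_mul] at h3
    push_cast at h3
    linarith
  · have h2 : A.lam ^ (2 * l) = A.lam ^ 2 * A.lam ^ (2 * (l - 1)) := by
      have : 2 * l = 2 + 2 * (l - 1) := by ring
      rw [this, zpow_add₀ h0.ne']
      rfl
    have h3 : 0 < A.lam ^ (2 * (l - 1)) := zpow_pos h0 _
    have h4 := mul_lt_mul_of_pos_right A.big h3
    rw [h2]
    linarith

theorem s_GCONT (hGF : S_GF) : S_GCONT := by
  intro k A l
  have h := hGF.2.2.2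
  unfold GG
  refine continuous_const.add (continuous_finsetSum _ fun i _ => continuous_const.mul ?_)
  exact h.comp ((continuous_apply i).div_const _)

end Pool.Agent.L7h6.CR
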