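import Pool.Agent.L7h31.CR.Stm

/-! [GF] of project CR (helper31). -/

set_option autoImplicit false

namespace Pool.Agent.L7h6.CR

open Pool.Agent.L7h31.CR

theorem s_GF : S_GF := by
  refine ⟨?_, ?_, ?_, ?_⟩
  · intro t
    unfold gf
    have h0 := Int.fract_nonneg t
    have h1 := Int.fract_lt_one t
    constructor
    · exact mul_nonneg h0 (by linarith)
    · nlinarith [sq_nonneg (Int.fract t - 1 / 2)]
  · intro t n
    constructor
    · unfold gf
      rw [Int.fract_add_intCast]
    · unfold gf
      have h : (n : ℝ) - t = -t + n := by ring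
      rw [h, Int.fract_add_intCast]
      by_cases h0 : Int.fract t = 0
      · rw [Int.fract_neg_eq_zero.2 h0, h0]
      · rw [Int.fract_neg h0]
        ring
  · intro t n
    unfold gf
    have h0 := Int.fract_nonneg t
    have h1 := Int.fract_lt_one t
    have h2 : t = ⌊t⌋ + Int.fract t := (Int.floor_add_fract t).symm
    obtain ⟨j, hj⟩ : ∃ j : ℤ, ⌊t⌋ = n + j := ⟨⌊t⌋ - n, by ring⟩
    set f := Int.fract t with hf
    have h3 : t = n + j + f := by
      rw [h2, hj]
      push_cast
      ring
    have h4 : f * (1 - f) - (t - n) * (n + 1 - t) = j * (j - 1 + 2 * f) := by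
      rw [h3]
      ring
    have hcases : j ≤ -1 ∨ j = 0 ∨ j = 1 ∨ 2 ≤ j := by omega
    rcases hcases with h | h | h | h
    · have h5 : (j : ℝ) ≤ -1 := by exact_mod_cast h
      have h6 : 0 < (j : ℝ) * (j - 1 + 2 * f) := mul_pos_of_neg_of_neg (by linarith) (by linarith)
      refine ⟨by linarith, ⟨fun h7 => by linarith, fun h7 => ?_⟩⟩
      exfalso
      linarith [h7.1]
    · have h5 : (j : ℝ) = 0 := by exact_mod_cast h
      have h6 : (j : ℝ) * (j - 1 + 2 * f) = 0 := by rw [h5]; ring
      refine ⟨by linarith, ⟨fun _ => ⟨by linarith, by linarith⟩, fun _ => by linarith⟩⟩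
    · have h5 : (j : ℝ) = 1 := by exact_mod_cast h
      have h6 : (j : ℝ) * (j - 1 + 2 * f) = 2 * f := by rw [h5]; ring
      refine ⟨by linarith, ⟨fun h7 => ?_, fun h7 => ?_⟩⟩
      · have : f = 0 := by linarith
        exact ⟨by linarith, by linarith⟩
      · have : f = 0 := by linarith [h7.2]
        linarith
    · have h5 : (2 : ℝ) ≤ j := by exact_mod_cast h
      have h6 : 0 < (j : ℝ) * (j - 1 + 2 * f) := mul_pos (by linarith) (by linarith)
      refine ⟨by linarith, ⟨fun h7 => by linarith, fun h7 => ?_⟩⟩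
      exfalso
      linarith [h7.2]
  · have h : Continuous ((fun f : ℝ => f * (1 - f)) ∘ Int.fract) :=
      ContinuousOn.comp_fract'' (by fun_prop) (by norm_num)
    exact h

end Pool.Agent.L7h6.CR
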