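import Pool.Agent.L7h31.CR.Stm

/-! [SD] of project CR (helper31). -/

set_option autoImplicit false

namespace Pool.Agent.L7h6.CR

open Pool.Agent.L7h31.CR

theorem lam_pos {k : ℕ} (A : Par k) : 0 < A.lam := lt_trans one_pos A.one_lt

theorem lam_shift {k : ℕ} (A : Par k) (e : ℤ) : A.lam ^ (e + (k + 1)) = 2 * A.lam ^ e := by
  have h : A.lam ^ ((k : ℤ) + 1) = 2 := by
    rw [← A.pow]
    exact_mod_cast rfl
  rw [zpow_add₀ (lam_pos A).ne', h]
  ring

theorem s_SD (hEX : S_EX) : S_SD := by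
  intro k A i l
  have h0 := lam_pos A
  have hsd : ∀ (j : ZMod (k + 1)) (m : ℤ), sd A j m = A.lam ^ (ex j m) := fun _ _ => rfl
  have hstep : ∀ (j : ZMod (k + 1)) (m : ℤ), (j = (m : ZMod (k + 1)) → sd A j (m + 1) = 2 * sd A j m) ∧
      (j ≠ (m : ZMod (k + 1)) → sd A j (m + 1) = sd A j m) := by
    intro j m
    obtain ⟨h1, h2, h3, h4, h5⟩ := hEX k j m
    constructor
    · intro hi
      obtain ⟨h6, h7⟩ := h2 hi
      rw [hsd, hsd, h6, h7, add_assoc, lam_shift]
    · intro hi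
      rw [hsd, hsd, h3 hi]
  obtain ⟨h1, h2, h3, h4, h5⟩ := hEX k i l
  refine ⟨zpow_pos h0 _, ⟨?_, ?_⟩, (hstep i l).1, (hstep i l).2, ?_, ?_, ?_⟩
  · exact zpow_le_zpow_right₀ A.one_lt.le h1.1
  · rw [← lam_shift]
    exact zpow_le_zpow_right₀ A.one_lt.le (by omega)
  · intro L hL
    induction L, hL using Int.leInduction with
    | base => exact ⟨1, by simp⟩
    | succ m hm ih =>
      obtain ⟨N, hN⟩ := ih
      by_cases hi : i = (m : ZMod (k + 1))
      · refine ⟨2 * N, ?_⟩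
        rw [(hstep i m).1 hi, hN]
        push_cast
        ring
      · exact ⟨N, by rw [(hstep i m).2 hi, hN]⟩
  · rw [hsd, hsd, h5, lam_shift]
  · intro d
    rw [hsd, hsd, h4, zpow_add₀ h0.ne']
    ring

end Pool.Agent.L7h6.CR
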